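import Pool.Agent.H81.NCH.Stmts

/-!
# NCH, module AVC: averaging over one coordinate first
-/

set_option autoImplicit false

namespace Pool.Agent.H81.NCH

namespace AVC

theorem sum_update {ι : Type} [Fintype ι] [DecidableEq ι] (m : ℕ) (p0 : ι) (f : (ι → Fin m) → ℝ) :
    ∑ η : ι → Fin m, ∑ ρ : Fin m, f (Function.update η p0 ρ) = (m : ℝ) * ∑ η : ι → Fin m, f η := by
  rw [← Fintype.sum_prod_type' (f := fun (η : ι → Fin m) (ρ : Fin m) => f (Function.update η p0 ρ))]
  have hinv : ∀ q : (ι → Fin m) × Fin m,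
      (Function.update (Function.update q.1 p0 q.2) p0 (q.1 p0),
        (Function.update q.1 p0 q.2) p0) = q := by
    intro q
    refine Prod.ext ?_ ?_
    · simp
    · simp
  let e : ((ι → Fin m) × Fin m) ≃ ((ι → Fin m) × Fin m) :=
    { toFun := fun q => (Function.update q.1 p0 q.2, q.1 p0)
      invFun := fun q => (Function.update q.1 p0 q.2, q.1 p0)
      left_inv := fun q => hinv q
      right_inv := fun q => hinv q }
  have h1 : ∑ q : (ι → Fin m) × Fin m, f (Function.update q.1 p0 q.2) =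
      ∑ q : (ι → Fin m) × Fin m, f q.1 :=
    Equiv.sum_comp e (fun q : (ι → Fin m) × Fin m => f q.1)
  rw [h1, Fintype.sum_prod_type]
  simp [Finset.mul_sum]

end AVC

open AVC in
open Classical in
theorem avc_thm : AVCStmt := by
  intro h m S G u x ω hm hu hx hS
  have hu' : u < h + 1 := Nat.lt_succ_of_le hu
  set p0 : Fin (h + 1) × Fin (2 ^ h) := (⟨u, hu'⟩, ⟨x, hx⟩) with hp0
  have hm0 : (m : ℝ) ≠ 0 := by
    have : m ≠ 0 := Nat.one_le_iff_ne_zero.mp hm
    exact_mod_cast this
  have key : ∀ (η : Om h m) (ρ : Fin m),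
      rr (mixS S (Function.update η p0 ρ) ω) = upd (rr (mixS S η ω)) u x ((ρ : ℕ) + 1) := by
    intro η ρ
    funext e i
    by_cases hei : e = u ∧ i = x
    · obtain ⟨rfl, rfl⟩ := hei
      have hc : e < h + 1 ∧ i < 2 ^ h := ⟨hu', hx⟩
      simp only [rr, upd, dif_pos hc, and_self, if_true]
      have : mixS S (Function.update η p0 ρ) ω (⟨e, hc.1⟩, ⟨i, hc.2⟩) = ρ := by
        simp only [mixS]
        rw [if_pos hS]
        exact Function.update_self _ _ _
      rw [this]
    · simp only [upd, if_neg hei]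
      by_cases hc : e < h + 1 ∧ i < 2 ^ h
      · simp only [rr, dif_pos hc]
        have hne : ((⟨e, hc.1⟩, ⟨i, hc.2⟩) : Fin (h + 1) × Fin (2 ^ h)) ≠ p0 := by
          intro heq
          apply hei
          rw [hp0] at heq
          have h1 := congrArg (fun q => (q.1 : ℕ)) heq
          have h2 := congrArg (fun q => (q.2 : ℕ)) heq
          exact ⟨h1, h2⟩
        have : mixS S (Function.update η p0 ρ) ω (⟨e, hc.1⟩, ⟨i, hc.2⟩) =
            mixS S η ω (⟨e, hc.1⟩, ⟨i, hc.2⟩) := by
          simp only [mixS]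
          by_cases hSe : S e i
          · rw [if_pos hSe, if_pos hSe, Function.update_of_ne hne]
          · rw [if_neg hSe, if_neg hSe]
        rw [this]
      · simp only [rr, dif_neg hc]
  have hsum := sum_update (ι := Fin (h + 1) × Fin (2 ^ h)) m p0
    (fun η : Om h m => G (rr (mixS S η ω)))
  unfold avg
  congr 1
  have h2 : ∀ η : Om h m, (∑ ρ ∈ Finset.range m, G (upd (rr (mixS S η ω)) u x (ρ + 1))) / (m : ℝ) =
      (∑ ρ : Fin m, G (rr (mixS S (Function.update η p0 ρ) ω))) / (m : ℝ) := by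
    intro η
    congr 1
    rw [Finset.sum_range]
    exact Finset.sum_congr rfl fun ρ _ => by rw [key η ρ]
  rw [Finset.sum_congr rfl fun η _ => h2 η, ← Finset.sum_div]
  rw [eq_div_iff hm0, mul_comm]
  exact hsum.symm

end Pool.Agent.H81.NCH
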